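import Pool.Agent.H66.GUA.Targets
import Pool.Agent.H91.LF.Basic

/-!
Module CN of the project GU on `MP_c59857_nt`: changing the length.
-/

set_option autoImplicit false

open Finset

namespace Pool.Agent.H18.GUA

open Pool.Agent.H31.DP Pool.Agent.H31.DPD Pool.Agent.H66.GUA
open Pool.Agent.H91.LF (lz)

lemma cn_norm_ee (x : ℝ) : ‖ee x‖ = 1 := by
  unfold ee
  have h : (2 * Real.pi * Complex.I * x : ℂ) = ((2 * Real.pi * x : ℝ) : ℂ) * Complex.I := by
    push_cast; ring
  rw [h, Complex.norm_exp_ofReal_mul_I]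

lemma cn_abs_prod {ι : Type*} (s : Finset ι) (f : ι → ℝ) (h : ∀ i ∈ s, |f i| ≤ 1) :
    |∏ i ∈ s, f i| ≤ 1 := by
  rw [Finset.abs_prod]
  exact Finset.prod_le_one (fun i _ => abs_nonneg _) h

lemma cn_abs_GC {l d : ℕ} (h : Fin l → ℕ) (p : ℕ) (s : Fin d → ℤ) (y : ℤ) : |GC h p s y| ≤ 1 := by
  unfold GC FF
  exact cn_abs_prod _ _ fun I _ => cn_abs_prod _ _ fun i _ => Pool.Agent.H91.LF.abs_lz_le _

theorem pf_CN : T_CN := by
  classical
  intro d l h N N' s θ hN
  have hNz : (N' : ℤ) ≤ N := by exact_mod_cast hN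
  have hsub : IC N' s ⊆ IC N s := by
    intro y hy
    unfold IC at hy ⊢
    rw [Finset.mem_filter, Finset.mem_Icc] at hy ⊢
    refine ⟨⟨hy.1.1, hy.1.2.trans hNz⟩, fun I => ⟨(hy.2 I).1, (hy.2 I).2.trans hNz⟩⟩
  have hsplit : hs h N s θ = hs h N' s θ +
      ∑ n ∈ IC N s \ IC N' s, ((GC h 1 s n : ℝ) : ℂ) * ee (n * θ) := by
    unfold hs
    rw [add_comm, Finset.sum_sdiff hsub]
  have hcard : ((IC N s \ IC N' s).card : ℝ) ≤ 2 ^ d * ((N : ℝ) - N') := by
    have h1 : IC N s \ IC N' s ⊆ (Finset.univ : Finset (Finset (Fin d))).biUnion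
        fun I => (Finset.Ioc (N' : ℤ) N).image fun z => z - sI s I := by
      intro y hy
      rw [Finset.mem_sdiff] at hy
      obtain ⟨hy1, hy2⟩ := hy
      unfold IC at hy1 hy2
      rw [Finset.mem_filter, Finset.mem_Icc] at hy1
      have h2 : ∃ I : Finset (Fin d), (N' : ℤ) < y + sI s I := by
        by_contra hcon
        push Not at hcon
        apply hy2
        rw [Finset.mem_filter, Finset.mem_Icc]
        have h3 := hcon ∅
        unfold sI at h3
        rw [Finset.sum_empty, add_zero] at h3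
        exact ⟨⟨hy1.1.1, h3⟩, fun I => ⟨(hy1.2 I).1, hcon I⟩⟩
      obtain ⟨I, hI⟩ := h2
      rw [Finset.mem_biUnion]
      refine ⟨I, Finset.mem_univ _, Finset.mem_image.2 ⟨y + sI s I, ?_, by ring⟩⟩
      rw [Finset.mem_Ioc]
      exact ⟨hI, (hy1.2 I).2⟩
    have h2 : (IC N s \ IC N' s).card ≤ 2 ^ d * (N - N') := by
      refine (Finset.card_le_card h1).trans (Finset.card_biUnion_le.trans ?_)
      have h3 : ∀ I ∈ (Finset.univ : Finset (Finset (Fin d))),
          ((Finset.Ioc (N' : ℤ) N).image fun z => z - sI s I).card ≤ N - N' := by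
        intro I _
        refine Finset.card_image_le.trans ?_
        rw [Int.card_Ioc]
        omega
      refine (Finset.sum_le_sum h3).trans ?_
      rw [Finset.sum_const, Finset.card_univ, Fintype.card_finset, Fintype.card_fin, smul_eq_mul]
    calc ((IC N s \ IC N' s).card : ℝ) ≤ ((2 ^ d * (N - N') : ℕ) : ℝ) := by exact_mod_cast h2
      _ = 2 ^ d * ((N : ℝ) - N') := by push_cast [Nat.cast_sub hN]; ring
  rw [hsplit]
  refine (norm_add_le _ _).trans (add_le_add le_rfl ?_)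
  refine (norm_sum_le _ _).trans (le_trans ?_ hcard)
  rw [← nsmul_one, ← Finset.sum_const]
  refine Finset.sum_le_sum fun n _ => ?_
  rw [norm_mul, cn_norm_ee, mul_one, Complex.norm_real, Real.norm_eq_abs]
  exact cn_abs_GC h 1 s n

end Pool.Agent.H18.GUA
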