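import Pool.Agent.H66.GUA.Targets

/-!
Module DS of the project GU on `MP_c59857_nt`: the vertices of the cubes and the iterated
difference as an alternating sum.
-/

set_option autoImplicit false

open Finset

namespace Pool.Agent.H18.GUA

open Pool.Agent.H31.DP Pool.Agent.H31.DPD Pool.Agent.H66.GUA
open Pool.Agent.H24.T2 (box cub)

/-- subsets without `0` -/
def J0 {n : ℕ} (J : Finset (Fin n)) : Finset (Fin (n + 1)) := J.map (Fin.succEmb n)

/-- subsets with `0` -/
def J1 {n : ℕ} (J : Finset (Fin n)) : Finset (Fin (n + 1)) := insert 0 (J0 J)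

/-- the elements other than `0` -/
def dn {n : ℕ} (ω : Finset (Fin (n + 1))) : Finset (Fin n) := Finset.univ.filter (fun i => i.succ ∈ ω)

lemma zero_notMem_J0 {n : ℕ} (J : Finset (Fin n)) : (0 : Fin (n + 1)) ∉ J0 J := by
  unfold J0
  rw [Finset.mem_map]
  rintro ⟨i, -, hi⟩
  exact Fin.succ_ne_zero i hi

lemma succ_mem_J0 {n : ℕ} (J : Finset (Fin n)) (i : Fin n) : i.succ ∈ J0 J ↔ i ∈ J := by
  unfold J0
  rw [Finset.mem_map]
  constructor
  · rintro ⟨j, hj, h⟩
    have : j = i := Fin.succ_injective _ h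
    rwa [this] at hj
  · intro h
    exact ⟨i, h, rfl⟩

lemma dn_J0 {n : ℕ} (J : Finset (Fin n)) : dn (J0 J) = J := by
  ext i
  unfold dn
  rw [Finset.mem_filter, succ_mem_J0]
  simp

lemma dn_J1 {n : ℕ} (J : Finset (Fin n)) : dn (J1 J) = J := by
  ext i
  unfold dn J1
  rw [Finset.mem_filter, Finset.mem_insert, succ_mem_J0]
  simp [Fin.succ_ne_zero]

lemma J0_dn {n : ℕ} {ω : Finset (Fin (n + 1))} (h : (0 : Fin (n + 1)) ∉ ω) : J0 (dn ω) = ω := by
  ext i
  refine Fin.cases ?_ (fun j => ?_) i
  · exact iff_of_false (zero_notMem_J0 _) h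
  · rw [succ_mem_J0]
    unfold dn
    simp

lemma J1_dn {n : ℕ} {ω : Finset (Fin (n + 1))} (h : (0 : Fin (n + 1)) ∈ ω) : J1 (dn ω) = ω := by
  ext i
  unfold J1
  refine Fin.cases ?_ (fun j => ?_) i
  · exact iff_of_true (Finset.mem_insert_self _ _) h
  · rw [Finset.mem_insert, succ_mem_J0]
    unfold dn
    simp [Fin.succ_ne_zero]

lemma sum_split {n : ℕ} (f : Finset (Fin (n + 1)) → ℝ) :
    ∑ ω, f ω = ∑ J : Finset (Fin n), f (J0 J) + ∑ J : Finset (Fin n), f (J1 J) := by
  rw [← Finset.sum_filter_add_sum_filter_not Finset.univ (fun ω => (0 : Fin (n + 1)) ∉ ω) f]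
  congr 1
  · refine Finset.sum_nbij' dn J0 ?_ ?_ ?_ ?_ ?_
    · exact fun _ _ => Finset.mem_univ _
    · intro J _
      exact Finset.mem_filter.2 ⟨Finset.mem_univ _, zero_notMem_J0 J⟩
    · intro ω hω
      exact J0_dn (Finset.mem_filter.1 hω).2
    · exact fun J _ => dn_J0 J
    · intro ω hω
      rw [J0_dn (Finset.mem_filter.1 hω).2]
  · refine Finset.sum_nbij' dn J1 ?_ ?_ ?_ ?_ ?_
    · exact fun _ _ => Finset.mem_univ _
    · intro J _
      exact Finset.mem_filter.2 ⟨Finset.mem_univ _, not_not.2 (Finset.mem_insert_self _ _)⟩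
    · intro ω hω
      exact J1_dn (not_not.1 (Finset.mem_filter.1 hω).2)
    · exact fun J _ => dn_J1 J
    · intro ω hω
      rw [J1_dn (not_not.1 (Finset.mem_filter.1 hω).2)]

lemma vx_J0 {n : ℕ} (x : ℤ) (t : Fin (n + 1) → ℤ) (J : Finset (Fin n)) :
    vx x t (J0 J) = vx x (Fin.tail t) J := by
  unfold vx J0
  rw [Finset.sum_map]
  rfl

lemma vx_J1 {n : ℕ} (x : ℤ) (t : Fin (n + 1) → ℤ) (J : Finset (Fin n)) :
    vx x t (J1 J) = vx x (Fin.tail t) J + t 0 := by
  have h := vx_J0 x t J
  unfold vx at h ⊢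
  unfold J1
  rw [Finset.sum_insert (zero_notMem_J0 J), ← h]
  ring

theorem pf_DS : T_DS := by
  intro n
  induction n with
  | zero =>
    intro A t φ x
    have hu : ∀ ω : Finset (Fin 0), ω = ∅ := fun ω => by ext i; exact i.elim0
    constructor
    · constructor
      · intro h ω
        rw [hu ω]
        unfold vx
        rw [Finset.sum_empty, add_zero]
        exact h
      · intro h
        have h1 := h ∅
        unfold vx at h1
        rw [Finset.sum_empty, add_zero] at h1
        exact h1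
    · rw [Fintype.sum_unique]
      have : (default : Finset (Fin 0)) = ∅ := hu _
      rw [this]
      unfold vx
      rw [Finset.sum_empty, add_zero, Finset.card_empty, pow_zero, one_mul]
      rfl
  | succ n ih =>
    intro A t φ x
    obtain ⟨h1, h2⟩ := ih (A.filter (fun n => n + t 0 ∈ A)) (Fin.tail t)
      (fun x => φ x - φ (x + t 0)) x
    constructor
    · show x ∈ cub n (A.filter (fun n => n + t 0 ∈ A)) (Fin.tail t) ↔ _
      rw [h1]
      constructor
      · intro h ω
        have h3 := Finset.mem_filter.1 (h (dn ω))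
        by_cases h0 : (0 : Fin (n + 1)) ∈ ω
        · rw [← J1_dn h0, vx_J1]
          exact h3.2
        · rw [← J0_dn h0, vx_J0]
          exact h3.1
      · intro h J
        refine Finset.mem_filter.2 ⟨?_, ?_⟩
        · rw [← vx_J0]
          exact h _
        · rw [← vx_J1]
          exact h _
    · show dl n (Fin.tail t) (fun x => φ x - φ (x + t 0)) x = _
      rw [h2, sum_split, ← Finset.sum_add_distrib]
      refine Finset.sum_congr rfl fun J _ => ?_
      rw [vx_J0, vx_J1]
      have c0 : (J0 J).card = J.card := Finset.card_map _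
      have c1 : (J1 J).card = J.card + 1 := by
        unfold J1
        rw [Finset.card_insert_of_notMem (zero_notMem_J0 J), c0]
      rw [c0, c1, pow_succ]
      ring

end Pool.Agent.H18.GUA
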